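import Pool.Agent.TH317.CC.Geo

set_option autoImplicit false

universe u

namespace Pool.Agent.TH317.CC

namespace H237

/-- The variation of a convex combination. -/
theorem eVariationOn_comb_le {E : Type} [NormedAddCommGroup E] [NormedSpace ℝ E]
    (p q : ℝ → E) (S : Set ℝ) (s : ℝ) (hs : s ∈ Set.Icc (0 : ℝ) 1) (m : ENNReal)
    (hp : eVariationOn p S ≤ m) (hq : eVariationOn q S ≤ m) :
    eVariationOn (fun t => (1 - s) • p t + s • q t) S ≤ m := by
  have h1s : (0 : ℝ) ≤ 1 - s := by linarith [hs.2]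
  have hsum : ENNReal.ofReal (1 - s) + ENNReal.ofReal s = 1 := by
    rw [← ENNReal.ofReal_add h1s hs.1]
    simp
  have hstep : ∀ a b : ℝ, edist ((1 - s) • p a + s • q a) ((1 - s) • p b + s • q b)
      ≤ ENNReal.ofReal (1 - s) * edist (p a) (p b) + ENNReal.ofReal s * edist (q a) (q b) := by
    intro a b
    refine (edist_add_add_le _ _ _ _).trans (le_of_eq ?_)
    rw [edist_smul₀, edist_smul₀]
    have e1 : ((‖(1 - s : ℝ)‖₊ : NNReal) : ENNReal) = ENNReal.ofReal (1 - s) := by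
      rw [ENNReal.ofReal, Real.toNNReal_of_nonneg h1s]
      simp [Real.nnnorm_of_nonneg h1s]
    have e2 : ((‖(s : ℝ)‖₊ : NNReal) : ENNReal) = ENNReal.ofReal s := by
      rw [ENNReal.ofReal, Real.toNNReal_of_nonneg hs.1]
      simp [Real.nnnorm_of_nonneg hs.1]
    rw [ENNReal.smul_def, ENNReal.smul_def, smul_eq_mul, smul_eq_mul, e1, e2]
  unfold eVariationOn
  refine iSup_le ?_
  rintro ⟨n, ⟨w, hw, hwS⟩⟩
  calc ∑ i ∈ Finset.range n, edist ((1 - s) • p (w (i + 1)) + s • q (w (i + 1)))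
        ((1 - s) • p (w i) + s • q (w i))
      ≤ ∑ i ∈ Finset.range n, (ENNReal.ofReal (1 - s) * edist (p (w (i + 1))) (p (w i)) +
          ENNReal.ofReal s * edist (q (w (i + 1))) (q (w i))) :=
        Finset.sum_le_sum (fun i _ => hstep _ _)
    _ = ENNReal.ofReal (1 - s) * ∑ i ∈ Finset.range n, edist (p (w (i + 1))) (p (w i)) +
          ENNReal.ofReal s * ∑ i ∈ Finset.range n, edist (q (w (i + 1))) (q (w i)) := by
        rw [Finset.sum_add_distrib, Finset.mul_sum, Finset.mul_sum]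
    _ ≤ ENNReal.ofReal (1 - s) * m + ENNReal.ofReal s * m := by
        gcongr
        · exact (eVariationOn.sum_le (f := p) hw hwS).trans hp
        · exact (eVariationOn.sum_le (f := q) hw hwS).trans hq
    _ = m := by rw [← add_mul, hsum, one_mul]

end H237

open H237 in
theorem local_homotopy {E : Type} [NormedAddCommGroup E] [NormedSpace ℝ E] {M : Type u}
    [MetricSpace M] (hM : LocLip E M) (K : Set M) (hK : IsCompact K) :
    ∃ r₀ > 0, ∃ C₀ : NNReal, 1 ≤ C₀ ∧ ∀ x ∈ K, ∀ (c d : ℝ) (f g : ℝ → M) (ℓ : ENNReal), c ≤ d →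
      ContinuousOn f (Set.Icc c d) → ContinuousOn g (Set.Icc c d) → f c = g c → f d = g d →
      Set.MapsTo f (Set.Icc c d) (Metric.ball x r₀) →
      Set.MapsTo g (Set.Icc c d) (Metric.ball x r₀) →
      eVariationOn f (Set.Icc c d) ≤ ℓ → eVariationOn g (Set.Icc c d) ≤ ℓ →
      ∃ G : ℝ → ℝ → M, ContinuousOn (Function.uncurry G) (Set.Icc 0 1 ×ˢ Set.Icc c d) ∧
        (∀ t ∈ Set.Icc c d, G 0 t = f t) ∧ (∀ t ∈ Set.Icc c d, G 1 t = g t) ∧
        (∀ s ∈ Set.Icc (0 : ℝ) 1, G s c = f c ∧ G s d = f d) ∧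
        ∀ s ∈ Set.Icc (0 : ℝ) 1, eVariationOn (G s) (Set.Icc c d) ≤ C₀ * ℓ := by
  classical
  choose C R φ ψ hC hR hφ hinv hψ using hM
  obtain ⟨t, -, ht⟩ := hK.elim_nhds_subcover (fun x => Metric.ball x (R x / 2))
    (fun x _ => Metric.ball_mem_nhds x (half_pos (hR x)))
  have hr : ∃ r₀ > 0, ∀ x ∈ t, r₀ ≤ R x / 2 := by
    clear ht
    induction t using Finset.induction_on with
    | empty => exact ⟨1, one_pos, by simp⟩
    | insert a s ha ih =>
      obtain ⟨r, hr, h⟩ := ih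
      refine ⟨min r (R a / 2), lt_min hr (half_pos (hR a)), fun x hx => ?_⟩
      rcases Finset.mem_insert.mp hx with rfl | hx
      · exact min_le_right _ _
      · exact (min_le_left _ _).trans (h x hx)
  obtain ⟨r₀, hr₀, hr⟩ := hr
  refine ⟨r₀, hr₀, max 1 (t.sup (fun x => C x * C x)), le_max_left _ _, ?_⟩
  intro x hx c d f g ℓ hcd hf hg hfc hfd hfm hgm hfv hgv
  obtain ⟨y, hy, hxy⟩ : ∃ y ∈ t, x ∈ Metric.ball y (R y / 2) := by
    simpa using ht hx
  have hsub : Metric.ball x r₀ ⊆ Metric.ball y (R y) := by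
    intro z hz
    rw [Metric.mem_ball] at hz hxy ⊢
    have := dist_triangle z x y
    have := hr y hy
    linarith
  have hfm' : Set.MapsTo f (Set.Icc c d) (Metric.ball y (R y)) := fun z hz => hsub (hfm hz)
  have hgm' : Set.MapsTo g (Set.Icc c d) (Metric.ball y (R y)) := fun z hz => hsub (hgm hz)
  have hball : ∀ z ∈ Metric.ball y (R y), φ y z ∈ Metric.ball (φ y y) (C y * R y) := by
    intro z hz
    have h1 := (hφ y).dist_le_mul z hz y (Metric.mem_ball_self (hR y))
    rw [Metric.mem_ball] at hz ⊢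
    exact lt_of_le_of_lt h1 (mul_lt_mul_of_pos_left hz (by exact_mod_cast hC y))
  have hconv : ∀ s ∈ Set.Icc (0 : ℝ) 1, ∀ z ∈ Set.Icc c d,
      (1 - s) • φ y (f z) + s • φ y (g z) ∈ Metric.ball (φ y y) (C y * R y) := by
    intro s hs z hz
    exact (convex_ball (φ y y) (C y * R y : ℝ)) (hball _ (hfm' hz)) (hball _ (hgm' hz))
      (by linarith [hs.2]) hs.1 (by ring)
  have hcf : ContinuousOn (fun z => φ y (f z)) (Set.Icc c d) :=
    (hφ y).continuousOn.comp hf hfm'
  have hcg : ContinuousOn (fun z => φ y (g z)) (Set.Icc c d) :=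
    (hφ y).continuousOn.comp hg hgm'
  refine ⟨fun s z => ψ y ((1 - s) • φ y (f z) + s • φ y (g z)), ?_, ?_, ?_, ?_, ?_⟩
  · have h1 : ContinuousOn (fun q : ℝ × ℝ => (1 - q.1) • φ y (f q.2) + q.1 • φ y (g q.2))
        (Set.Icc 0 1 ×ˢ Set.Icc c d) := by
      have a1 : ContinuousOn (fun q : ℝ × ℝ => φ y (f q.2)) (Set.Icc (0 : ℝ) 1 ×ˢ Set.Icc c d) :=
        hcf.comp continuousOn_snd (fun q hq => hq.2)
      have a2 : ContinuousOn (fun q : ℝ × ℝ => φ y (g q.2)) (Set.Icc (0 : ℝ) 1 ×ˢ Set.Icc c d) :=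
        hcg.comp continuousOn_snd (fun q hq => hq.2)
      exact ((continuousOn_const.sub continuousOn_fst).smul a1).add (continuousOn_fst.smul a2)
    exact (hψ y).continuousOn.comp h1 (fun q hq => hconv q.1 hq.1 q.2 hq.2)
  · intro z hz
    simpa using hinv y (f z) (hfm' hz)
  · intro z hz
    simpa using hinv y (g z) (hgm' hz)
  · intro s hs
    constructor
    · have : (1 - s) • φ y (f c) + s • φ y (g c) = φ y (f c) := by
        rw [← hfc, ← add_smul]; simp
      simp only [this]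
      exact hinv y (f c) (hfm' (Set.left_mem_Icc.mpr hcd))
    · have : (1 - s) • φ y (f d) + s • φ y (g d) = φ y (f d) := by
        rw [← hfd, ← add_smul]; simp
      simp only [this]
      exact hinv y (f d) (hfm' (Set.right_mem_Icc.mpr hcd))
  · intro s hs
    have v1 : eVariationOn (fun z => φ y (f z)) (Set.Icc c d) ≤ C y * ℓ :=
      ((hφ y).comp_eVariationOn_le hfm').trans (by gcongr)
    have v2 : eVariationOn (fun z => φ y (g z)) (Set.Icc c d) ≤ C y * ℓ :=
      ((hφ y).comp_eVariationOn_le hgm').trans (by gcongr)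
    have v3 := eVariationOn_comb_le _ _ (Set.Icc c d) s hs _ v1 v2
    have v4 : eVariationOn (fun z => ψ y ((1 - s) • φ y (f z) + s • φ y (g z))) (Set.Icc c d)
        ≤ C y * eVariationOn (fun z => (1 - s) • φ y (f z) + s • φ y (g z)) (Set.Icc c d) :=
      (hψ y).comp_eVariationOn_le (fun z hz => hconv s hs z hz)
    refine v4.trans ?_
    calc (C y : ENNReal) * eVariationOn (fun z => (1 - s) • φ y (f z) + s • φ y (g z)) (Set.Icc c d)
        ≤ C y * (C y * ℓ) := by gcongr
      _ = ((C y * C y : NNReal) : ENNReal) * ℓ := by push_cast; ring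
      _ ≤ _ := by
        gcongr
        exact (Finset.le_sup (f := fun x => C x * C x) hy).trans (le_max_right _ _)

end Pool.Agent.TH317.CC
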